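import Pool.Agent.Q284.CT.Exp
import Pool.Agent.Q284.CT.Hay

/-!
# The Riemann hypothesis for all twists of bounded rank does not bound the Ramanujan exponents

`V` is a set of places (in the application: the places of a global function field `K` with `q` constants outside a
finite set), `T` a family of twists `τ` of rank at most `m` (`Pool/Agent/Q284/CT/Defs.lean`, `Places` and `Family`):
the conditions are `|par τ v i| ≤ 1`, stability under duals, the bounds which the Riemann hypothesis for the
Rankin-Selberg `L`-functions `L(s, τ × τ')` gives for the sums over the places of each degree, and a bound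
`A q^(b X - M)`, `b < 1/4`, for the number of the `τ` with `c τ ≤ X`, where `c τ` is a lower bound for the degrees of
the `L`-functions.

`n = 2g`, `g ≥ 4`, `δ > 0`.  For EVERY function `θ` from `V` to `[0, 1/2 - 1/(g-1) - δ]` there are self-dual unramified
`Π_v` of `PGL_2g` at all `v` in `V`, with Satake parameters `q_v^(θ v) β_j`, `q_v^(-θ v) β_j`, `|β_j| = 1` (unitary and
generic: products of complementary series), such that for EVERY `τ` in `T` the `L`-function `L(s, Π × τ)` is a
polynomial in `q^(-s)` of the prescribed degree `D τ ≥ c τ` with functional equation with the prescribed root number,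
and ALL its zeros are on the line `Re s = 1/2`.

Application.  By Lafforgue's theorems the cuspidal automorphic representations of `GL_r`, `r ≤ m`, of a global function
field (up to unramified twists `|·|^s`) form such a family, with `b = (m + 1)/n + o(1)` for the degrees and root
numbers of a very ramified `Π_∞` (this is not proved here).  The second part of the theorem shows that the primitive
Hayes characters (all the idele class characters of `F_q(T)`, up to `|·|^s`) are such a family.

Projects WE, GE and CT: plan and assembly by helper284, lemmas of WE and GE proved by helpers 14, 24, 31, 53, 68, 92,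
96, 150, 151, 154, 166, 182, 190, 198, 208, 224, 237, 241, 265, 275, 277.
-/

set_option autoImplicit false

open Finset Polynomial ComplexConjugate

namespace Pool.Agent.Results.MP_08cfa9_nt.ExponentsBoundedRankTwists

open Pool.Agent.Q284.PS (Nice)
open Pool.Agent.Q284.GE (RiemannHypothesis)
open Pool.Agent.Q284.CT

theorem result :
    (∀ (g m : ℕ) (δ A b : ℝ), 4 ≤ g → 0 < δ → 1 / ((g : ℝ) - 1) + δ ≤ 1 / 2 → 1 ≤ A → 0 ≤ b → b < 1 / 4 → ∃ M₀ : ℕ,
      ∀ (V T : Type) (q M : ℕ) (deg : V → ℕ) (pl : ℕ → Finset V) (par : T → V → Fin m → ℂ) (dual : T → T)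
        (per c : T → ℕ), 2 ≤ q → M₀ ≤ M → Places q A deg pl → Family q A b M deg pl par dual per c →
      -- the exponents
      ∀ θ : V → ℝ, (∀ v, 0 ≤ θ v ∧ θ v ≤ 1 / 2 - 1 / ((g : ℝ) - 1) - δ) →
      -- degrees and root numbers
      ∀ (D : T → ℕ) (ε : T → ℂ),
        (∀ τ : T, c τ ≤ D τ ∧ per τ ∣ D τ ∧ D (dual τ) = D τ) →
        (∀ τ : T, ‖ε τ‖ = 1 ∧ ε (dual τ) = conj (ε τ)) →
      ∃ β : V → Fin g → ℂ, Tempered β ∧ SelfDual β ∧
        ∀ τ : T, ∃ L : ℂ → ℂ, Nice q (D τ) (ε τ) L ∧ RiemannHypothesis L ∧
          ∀ s : ℂ, 1 - 9 / 10 * (1 / 2 - 2 * b) < s.re → 1 - 1 / ((g : ℝ) - 1) - δ < s.re →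
            HasProd (expFactor q deg θ β (par τ) s) (L s)) ∧
    -- the primitive Hayes characters form a family
    ∀ (F : Type) [Field F] [Fintype F] (ν M : ℕ), 1 ≤ ν → 3 ≤ M →
      Places (Fintype.card F : ℝ) 4 (hdeg (F := F)) (hpl F) ∧
      Family (Fintype.card F : ℝ) 4 (2 / ν) (M - 3) (hdeg (F := F)) (hpl F) hpar hdual (fun _ => 1) (hcond ν M) :=
  ⟨t_exp, fun _ _ _ _ _ hν hM => ⟨hplaces, hfamily hν hM⟩⟩

end Pool.Agent.Results.MP_08cfa9_nt.ExponentsBoundedRankTwists
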