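import Pool.Agent.Q284.PX.All

/-!
# The exponent of Luo, Rudnick and Sarnak is sharp over `F_q(T)`

Luo, Rudnick and Sarnak prove `|α| ≤ |P|^(1/2 - 1/(N²+1))` for the Satake parameters of every cuspidal
representation of `GL_N` from the following facts only: the local components `Π_P` are unitary, and the
Rankin-Selberg `L`-functions `L(s, Π × Π~ ⊗ χ)` twisted by the characters `χ` of `GL_1` are nice (Euler product
absolutely convergent for `Re s > 1`, analytic continuation, functional equation, pole only for the trivial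
twist).  Over number fields this is still the best bound for general `N`.  Here: for all large `N`, all places
`P₀` of `F_q(T)` of large degree (`q` odd) and all `0 ≤ θ ≤ 1/2 - 3/N²` there are self-dual unramified
`Π_P` (all finite places `P`) with trivial central character, tempered for `P ≠ P₀`, with Satake parameters
`|P₀|^θ, |P₀|^(-θ), 1, ..., 1` at `P₀` (a complementary series), such that for ALL idele class characters `χ`
of `F_q(T)`, with whatever ramification, `L(s, Π × Π~ ⊗ χ) = L(s, χ) E(s)`, where `E` is entire, a polynomial in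
`q^(-s)` with functional equation, with prescribed degrees `D χ` and prescribed root numbers `ε χ`, and `E(1) ≠ 0`
(so there is a simple pole at `s = 1` for `χ = 1`, as for cuspidal `Π`).  So no bound better than
`1/2 - 3/N²` follows from these facts; the saving `1/(N²+1)` is of the right order.

The degrees: every `D χ ≥ (N² - 3N) (deg Q + max 2 l - 1)` is allowed, for instance
`(N² - 1)(deg Q - 2) + a(Π_∞ × Π_∞~ ⊗ χ_∞) - a(χ_∞)` for a supercuspidal `Π_∞` of `GL_N` for which the nontrivial
part of `Π_∞ × Π_∞~`, of dimension `N² - N`, has non-integral slopes larger than two (such `Π_∞` exist if the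
characteristic does not divide `N`: induced from a character of a totally ramified extension of degree `N`).

Project PX: plan, statements with paper proofs and assembly by helper284; lemmas proved by helpers 16, 24, 53,
58, 68, 92, 95, 149, 162, 166, 177, 184, 222, 225, 237, 249, 251, 277, 285.
-/

set_option autoImplicit false

open Finset Polynomial ComplexConjugate

namespace Pool.Agent.Results.MP_08cfa9_nt.LuoRudnickSarnakSharp

open Pool.Agent.Q284.PS Pool.Agent.Q284.PX

theorem result : ∃ N₀ : ℕ, ∀ N : ℕ, N₀ ≤ N → ∃ m₀ : ℕ, ∀ (F : Type) [Field F] [Fintype F],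
    ringChar F ≠ 2 → ∀ P₀ : F[X], P₀.Monic → Irreducible P₀ → m₀ ≤ P₀.natDegree →
    ∀ θ : ℝ, 0 ≤ θ → θ ≤ 1 / 2 - 3 / (N : ℝ) ^ 2 →
    ∀ (D : F[X] → ℕ → (F[X] → ℂ) → ℕ) (ε : (F[X] → ℂ) → ℂ),
    (∀ (Q : F[X]) (l : ℕ) (χ : F[X] → ℂ), Prim Q l χ →
      (N ^ 2 - 3 * N) * (Q.natDegree + max 2 l - 1) ≤ D Q l χ ∧ D Q l (fun f => conj (χ f)) = D Q l χ) →
    (∀ χ, ‖ε χ‖ = 1) → (∀ χ, ε (fun f => conj (χ f)) = conj (ε χ)) →
    ∃ α : F[X] → Fin N → ℂ,
      (∀ P : F[X], P.Monic → Irreducible P → P ≠ P₀ → ∀ j, ‖α P j‖ = 1) ∧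
      α P₀ = al0 N ((Fintype.card F : ℝ) ^ (θ * P₀.natDegree)) ∧
      (∀ P : F[X], P.Monic → Irreducible P → ∏ j, α P j = 1) ∧ SelfDual α ∧
      ∀ (Q : F[X]) (l : ℕ) (χ : F[X] → ℂ), Prim Q l χ → ∃ E : ℂ → ℂ,
        Nice (Fintype.card F) (D Q l χ) (ε χ) E ∧
        (∀ s : ℂ, 1 < s.re → HasProd (rsFactor α χ s) (dirichletL χ s * E s)) ∧
        ∀ s : ℂ, 1 - 5 / (2 * ((N ^ 2 - 3 * N : ℕ) : ℝ)) ≤ s.re → E s ≠ 0 ∧
          HasProd (fun P : Place F => (1 - χ P.1 * absPow P.1 s) * rsFactor α χ s P) (E s) :=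
  lrsStm

end Pool.Agent.Results.MP_08cfa9_nt.LuoRudnickSarnakSharp
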