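import Pool.Agent.Q177.PL.RatB

/-!
# If Ramanujan fails at `v` then the stabilisers of the nodal domains have large `v`-adic limit sets

Let `π` be a cuspidal automorphic representation of `PGL₂` over a global field `k` (so `π` is globally generic) which
is unramified at the finite place `v`, `q` the cardinality of the residue field of `v`, and let `φ` be a real function in
`π` fixed by the maximal compact subgroup `K_v` at `v`.  It can be seen as a function on `Z × V`, where `V` is the set of
the vertices of the Bruhat-Tits tree of `PGL₂(k_v)`, invariant under a countable group `Γ` acting on both factors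
(`Z = PGL₂(𝔸^v) / K^v` and `Γ = PGL₂(k)`; or, by strong approximation, `Z` the product of the symmetric spaces at the
archimedean places and `Γ` an `S`-arithmetic group).  It satisfies `∑_{w ~ v} φ(z, w) = L φ(z, v)`, and `π_v` is tempered
if and only if `|L| ≤ 2 √q`.  If it is not tempered then `|L| = q ^ s + q ^ (1 - s)` with `s = 1/2 + θ > 1/2`.

We show: if `π_v` is not tempered then for every nodal domain `D` of `φ` in `Z × V` on which `φ` is bounded the limit set,
in the boundary `P¹(k_v)` of the tree, of the stabiliser of `D` in `Γ` has positive `s`-dimensional Hausdorff measure; so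
its Hausdorff dimension is at least `s = 1/2 + θ`.  This holds even for the limits of the elements of the stabiliser whose
component away from `v` stays in a given neighbourhood of a point of `Z`.

Definitions are in `Pool.Agent.Q177.PL.Defs`.
-/

set_option autoImplicit false

open MeasureTheory
open scoped MatrixGroups UpperHalfPlane

namespace Pool.Agent.Results.MP_08cfa9_nt.PadicLimitSets

open Pool.Agent.Q177.PL

universe u₁ u₂ u₃

/-- **The limit sets of the stabilisers of the nodal domains of a form which is not tempered at `v`.** -/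
theorem result :
    -- (1) a group acting properly on `Z × T`, `T` a `(q+1)`-regular tree
    (∀ (q : ℕ) [NeZero q], 2 ≤ q →
      ∀ (V : Type u₁) (T : SimpleGraph V) [T.LocallyFinite] (Z : Type u₂) [TopologicalSpace Z]
        [T2Space Z] [LocallyConnectedSpace Z] [MeasurableSpace Z] [BorelSpace Z] (μ : Measure Z)
        [μ.IsOpenPosMeasure] (Γ : Type u₃) [Group Γ] [Countable Γ] [MulAction Γ Z] [MulAction Γ V]
        [ContinuousConstSMul Γ Z] [SMulInvariantMeasure Γ Z μ],
      TreeAction q T Z Γ →
      ∀ (L : ℝ) (φ : Z × V → ℝ), Eigenform T Γ μ L φ → LargeLimitSets q T Γ L φ) ∧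
    -- (2) the Bruhat-Tits tree of `PGL₂` over any discretely valued field with finite residue field
    (∀ (O : Type u₁) (K : Type u₂) [CommRing O] [IsDomain O] [IsDiscreteValuationRing O] [Field K]
        [Algebra O K] [IsFractionRing O K] [Finite (IsLocalRing.ResidueField O)],
      (btGraph O K).IsTree ∧
      (btGraph O K).IsRegularOfDegree (Nat.card (IsLocalRing.ResidueField O) + 1) ∧
      ∀ (g : GL (Fin 2) K) (v w : Vertex O K),
        (btGraph O K).Adj v w → (btGraph O K).Adj (g • v) (g • w)) ∧
    -- (3) subgroups of `SL₂(ℤ[1/p])`, acting on the product of the upper half plane and the tree of `PGL₂(ℚ_p)`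
    (∀ (p : ℕ) [Fact p.Prime] (Γ : Subgroup SL(2, ℚ)),
      (∀ γ ∈ Γ, ∀ i j, ∃ (n : ℕ) (a : ℤ), (γ : SL(2, ℚ)) i j * p ^ n = a) →
      ∀ (L : ℝ) (φ : ℍ × Vertex ℤ_[p] ℚ_[p] → ℝ),
        Eigenform (btGraph ℤ_[p] ℚ_[p]) Γ volume L φ →
        LargeLimitSets p (btGraph ℤ_[p] ℚ_[p]) Γ L φ) := by
  refine ⟨?_, ?_, ?_⟩
  · intro q _ hq V T _ Z _ _ _ _ _ μ _ Γ _ _ _ _ _ _ hA L φ hφ
    exact largeLimitSets hq hA hφ
  · intro O K _ _ _ _ _ _ _
    exact ⟨btGraph_isTree, btGraph_regular, fun g v w h => btGraph_smul g h⟩
  · intro p hp Γ hΓ L φ hφ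
    have hreg : (btGraph ℤ_[p] ℚ_[p]).IsRegularOfDegree (p + 1) := by
      have h := btGraph_regular (O := ℤ_[p]) (K := ℚ_[p])
      rw [card_residue] at h
      exact h
    have hA : TreeAction p (btGraph ℤ_[p] ℚ_[p]) ℍ Γ :=
      { tree := btGraph_isTree
        regular := hreg
        adj_smul := fun γ v w h =>
          btGraph_smul (Matrix.SpecialLinearGroup.mapGL ℚ_[p] (γ : SL(2, ℚ))) h
        proper := fun K hK v => proper_rat hΓ hK v }
    exact largeLimitSets (μ := volume) hp.out.two_le hA hφ

end Pool.Agent.Results.MP_08cfa9_nt.PadicLimitSets
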