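import Mathlib
import Pool.Agent.Q251.GN.Cor

/-!
# Generic cuspidal representations of `GL(3)`: tempered places of positive density, or Hecke eigenvalues on three points

Let `π` be a unitary cuspidal automorphic representation of `GL_3` over a number field `K` (it is globally generic),
unramified outside the finite set `S`, with Satake parameters `α_{i,v}` and Hecke eigenvalues `a_v = ∑_i α_{i,v}`,
`v ∉ S`. The generalized Ramanujan conjecture says that `π_v` is tempered, i.e. `|α_{i,v}| = 1`, for all `v`. For
`π` not self-dual up to twist it is not known that the tempered places have positive density. Let `X` be a ray class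
group of `K` of which the central character `w` of `π` is a character (after an unramified twist this is so for every
`π` if `K = ℚ`), `S` containing the divisors of the modulus, `n = |X|`, and let `cl v ∈ X` be the class of `v`. For
a set `A` of places put `A(σ) = ∑_{v ∈ A} (N v)^{-σ}`; let `T` be the set of the tempered places and `P` the set of
all places. For `g ∈ X`, a cube root `z` of `-w(g)`, and `0 < ε ≤ √3 / 2` let `A` be the set of the places `v` of the
class `g` with `|a_v - z| < ε`. We show:

* *Stability.* `|A(σ) - P(σ) / (3 n)| ≤ 5 (T(σ) P(σ) / n)^{1/2} + (50 / ε²) T(σ) + (C / ε²) (1 + P(σ)^{1/2})` for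
  `1 < σ ≤ 2`, with `C` independent of `g`, `z`, `ε`, `σ`. As `P(σ) ~ log (1 / (σ - 1))`, this is: if `δ` is the
  upper Dirichlet density of the tempered places, then the upper and lower densities of `A` differ from `1 / (3 n)` by
  at most `5 (δ / n)^{1/2} + 50 δ / ε²`.
* *Density zero.* If the tempered places have Dirichlet density `0`, then `a_v` is equidistributed on the three cube
  roots of `-w(g)` in every class `g` of every such ray class group: `A` has Dirichlet density `1 / (3 n)`.
* *A criterion for positive density.* For all `σ` near `1`: if `A(σ) ≤ P(σ) / (50 n)`, then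
  `T(σ) ≥ ε² / (500 n) · P(σ)`. So if in a single class `g` the eigenvalues `a_v` avoid one of the three discs, up to
  a set of places of density `0`, then `π_v` is tempered for a set of places of lower Dirichlet density at least
  `ε² / (500 n)`; if they avoid it along a sequence `σ → 1`, then for a set of such upper density. For instance: if
  `w(g) = 1` and `a_v` is real for almost all `v` of the single class `g`, the tempered places have lower density
  at least `3 / (2000 n)` (take `z = e(1/6)`, `ε = √3 / 2`).

Known before: there are infinitely many tempered places (Ramakrishnan), more than `x^{1/2}` at every scale, and the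
places with `|α_{i,v}| ≥ 1 + δ` have upper density at most `1 / (T_δ (T_δ - 2))` times that of the tempered places,
(`TemperedEveryScaleGL3`, `MP_8410ab_nt.TemperedMajority`, starting results). For spherical cusp forms on `PGL_3` over
`ℚ` with `O(x^c)`, `c < 1`, tempered primes, the distribution of `λ(p)` was found in `MP_fa98d2_nt.FewTemperedPrimes`.
Here nothing is assumed about the number of the tempered places, `K`, the ramification and the central character are
arbitrary, and the hypothesis of density zero cannot be treated by Landau's lemma, as no `L`-function continues.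

The structures `CuspidalGL3` and `ClassTwists` list what is used of `π`; all of it is known: the local components are
unitary; `L(s, π × π~)` converges absolutely for `Re s > 1`; the adjoint `L`-function is holomorphic for
`Re s ≥ 1/2` (Ginzburg-Jiang, Hundley-Zhang); `|α_{i,v}|² < N v` (Jacquet-Shalika); for all characters `ψ` of `X` the
functions `L^S(s, π × ψ)` and, for `ψ ≠ 1`, `L^S(s, ψ)` are continuous and not zero at `s = 1` (Godement-Jacquet,
Jacquet-Shalika, Hecke).

The proof. A nontempered `π_v` has the parameters `(r u, u / r, y)`, `|u| = |y| = 1`, `u² y = w(v)`, and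
`|a_v|² - 1 = T (T - 2) + 2 T (1 + Re(u / y))`, `T = r + 1/r ≥ 2`, is at least `|a_v - z_v|² / 34` for some cube root
`z_v` of `-w(v)`. As `L(s, π × π~) / ζ_K(s)` is finite at `s = 1`, `∑_v |a_v - z_v|² (N v)^{-σ} ≤ 50 T(σ) + O(1)`.
The logarithm of `L^S(s, π × ψ)` is bounded near `s = 1`, and so is `∑_v ψ(v) a_v (N v)^{-σ}`; by Cauchy's
inequality `|∑_v ψ(v) z_v (N v)^{-σ}| ≤ (50 T(σ) P(σ))^{1/2} + O(P(σ)^{1/2})`. For a given class, `z_v` takes three
values, and the indicator function of one of them is `(1 + 2 Re (z̄ z_v)) / 3`: no twist by a cubic character and no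
symmetric square `L`-function is needed.
-/

set_option autoImplicit false

namespace Pool.Agent.Results.MP_08cfa9_nt.TemperedDensityOrThreePoints

open Filter Topology NumberField IsDedekindDomain
open Pool.Agent.TH861.GL3 Pool.Agent.Q251.GN

/-- **Cusp forms on `GL(3)`: tempered places of positive density, or equidistribution on three points.** -/
theorem result {K : Type*} [Field K] [NumberField K] {S : Finset (HeightOneSpectrum (𝓞 K))}
    {X : Type*} [AddCommGroup X] [Finite X] {α : PL S → Fin 3 → ℂ} {cl : PL S → X} {w : X → ℂ}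
    (h : CuspidalGL3 α) (ht : ClassTwists α cl w) :
    -- stability
    (∃ C : ℝ, 0 ≤ C ∧ ∀ (g : X) (z : ℂ), z ^ 3 = -w g → ∀ ε : ℝ, 0 < ε → ε ^ 2 ≤ 3 / 4 → ∀ σ : ℝ, 1 < σ → σ ≤ 2 →
      |wt {v : PL S | cl v = g ∧ ‖∑ i, α v i - z‖ < ε} σ - wt (Set.univ : Set (PL S)) σ / (3 * (Nat.card X : ℝ))| ≤
        5 * Real.sqrt (wt {v : PL S | ∀ i, ‖α v i‖ = 1} σ * wt (Set.univ : Set (PL S)) σ / (Nat.card X : ℝ)) +
          50 / ε ^ 2 * wt {v : PL S | ∀ i, ‖α v i‖ = 1} σ +
          C / ε ^ 2 * (1 + Real.sqrt (wt (Set.univ : Set (PL S)) σ))) ∧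
    -- tempered places of density zero
    (Tendsto (fun σ : ℝ => wt {v : PL S | ∀ i, ‖α v i‖ = 1} σ / wt (Set.univ : Set (PL S)) σ) (𝓝[>] 1) (𝓝 0) →
      ∀ (g : X) (z : ℂ), z ^ 3 = -w g → ∀ ε : ℝ, 0 < ε → ε ^ 2 ≤ 3 / 4 →
        Tendsto (fun σ : ℝ => wt {v : PL S | cl v = g ∧ ‖∑ i, α v i - z‖ < ε} σ / wt (Set.univ : Set (PL S)) σ)
          (𝓝[>] 1) (𝓝 (1 / (3 * (Nat.card X : ℝ))))) ∧
    -- a disc which is missed
    ∀ (g : X) (z : ℂ), z ^ 3 = -w g → ∀ ε : ℝ, 0 < ε → ε ^ 2 ≤ 3 / 4 → ∀ᶠ σ : ℝ in 𝓝[>] 1,
      wt {v : PL S | cl v = g ∧ ‖∑ i, α v i - z‖ < ε} σ ≤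
          wt (Set.univ : Set (PL S)) σ / (50 * (Nat.card X : ℝ)) →
        ε ^ 2 / (500 * (Nat.card X : ℝ)) * wt (Set.univ : Set (PL S)) σ ≤ wt {v : PL S | ∀ i, ‖α v i‖ = 1} σ :=
  ⟨stability h ht, fun h0 g z hz _ hε hε1 => equidistribution h ht h0 g z hz hε hε1,
    fun g z hz _ hε hε1 => missed_disc h ht g z hz hε hε1⟩

end Pool.Agent.Results.MP_08cfa9_nt.TemperedDensityOrThreePoints
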